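import Pool.Agent.P.MP_81f9fb_co.Eq10

set_option autoImplicit false

namespace Pool.Agent.Results.MP_81f9fb_co.ExtremalClass

open Pool.Agent.P.MP_81f9fb_co

theorem result (V : Type) [Fintype V] (X : V → V → Prop) (d g : ℕ) (h3 : 3 < g) :
    ((∀ u v : V, ∃ φ : X ≃r X, φ u = v) ∧ (∀ v : V, Set.ncard {w | X v w} = d) ∧
      IsLeast {l | HasCycle X l} g ∧ ¬ InL V X ∧
      (Fintype.card V : ℤ) = ((d : ℤ) + 1) * ((g : ℤ) - 1) - 1) ↔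
    ∃ (W : Type) (_ : Fintype W) (T : W → W → Prop) (c e : ℕ), InL W T ∧
      (∀ w : W, Set.ncard {w' | T w w'} = c) ∧ (∀ l < g, ¬ HasCycle T l) ∧
      Fintype.card W = (g - 1) * c + 1 ∧ 2 ≤ e ∧ d = c * ((g - 1) * (e + 1) - 1) + e ∧
      Nonempty (X ≃r lex T (hole ((g - 1) * (e + 1) - 1) e)) := by
  rw [← Pool.Agent.P.MP_81f9fb_co.classification V X d g h3]
  refine ⟨fun ⟨a, b, c, e, f⟩ => ⟨a, b, c, e, f.le⟩, fun ⟨a, b, c, e, f⟩ => ⟨a, b, c, e, ?_⟩⟩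
  exact le_antisymm f (Pool.Agent.P.MP_81f9fb_co.main V X a d g b c h3 e)

end Pool.Agent.Results.MP_81f9fb_co.ExtremalClass
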