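import Pool.Agent.P.MP_81f9fb_co.Main

set_option autoImplicit false

namespace Pool.Agent.Results.MP_81f9fb_co.OrderBound

open Pool.Agent.P.MP_81f9fb_co

theorem result (V : Type) [Fintype V] (X : V → V → Prop) (_hloop : ∀ v : V, ¬ X v v)
    (hVT : ∀ u v : V, ∃ φ : X ≃r X, φ u = v) (d g : ℕ)
    (hd : ∀ v : V, Set.ncard {w | X v w} = d) (hg : IsLeast {l | HasCycle X l} g) (h3 : 3 < g)
    (hL : ¬ InL V X) : ((d : ℤ) + 1) * ((g : ℤ) - 1) - 1 ≤ (Fintype.card V : ℤ) :=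
  Pool.Agent.P.MP_81f9fb_co.main V X hVT d g hd hg h3 hL

end Pool.Agent.Results.MP_81f9fb_co.OrderBound
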